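import Pool.Agent.R696.N3.Rad
set_option autoImplicit false

/-! The Zhevlakov radical of the free alternative algebra of rank 3 over any field is zero. -/

namespace Pool.Agent.Results.MP_643ad6_al.RadicalRankThree
open Pool.Agent.R696.N3 Pool.Agent.Helper928.Nuc.Free

/-- The Zhevlakov radical: the sum of all (two-sided) ideals consisting of quasi-regular elements. -/
def zhevlakovRadical (A : Type) [NonUnitalNonAssocRing A] : TwoSidedIdeal A :=
  sSup {I | ∀ f ∈ I, QuasiRegular f}

/-- Let `F` be any field (of any characteristic) and let `A = FreeAlt F (Fin 3)` be the free alternative `F`-algebra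
on three generators. Every ideal of `A` consisting of quasi-regular elements is zero, so that the Zhevlakov radical
of `A` is zero. -/
theorem result (F : Type) [Field F] :
    (∀ I : TwoSidedIdeal (FreeAlt F (Fin 3)), (∀ f ∈ I, QuasiRegular f) → I = ⊥) ∧
    zhevlakovRadical (FreeAlt F (Fin 3)) = ⊥ := by
  refine ⟨qr_ideal, ?_⟩
  rw [zhevlakovRadical, sSup_eq_bot]
  exact fun I hI => qr_ideal I hI

end Pool.Agent.Results.MP_643ad6_al.RadicalRankThree
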